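import Pool.Agent.Helper3.EL.Defs

/-!
# Project EL, module K: at most one column closes a circuit
-/

set_option autoImplicit false

namespace Pool.Agent.Helper3.EL

open Finset Pool.Agent.Lead.TB Pool.Agent.Lead.TB.Halves Pool.Agent.Helper84.TL

namespace Close

theorem mR_mR {n m : ℕ} {ι : Type} (e : Fin n → (ι ≃ Fin m × Bool)) (x : Fin n × ι) :
    mR e (mR e x) = x := by
  unfold mR
  exact Prod.ext rfl (par_par _ _)

theorem mC_snd {n m : ℕ} {ι : Type} (e : Fin n → (ι ≃ Fin m × Bool)) (f : ι → Equiv.Perm (Fin n))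
    (x : Fin n × ι) : (mC e f x).2 = par (e (f x.2 x.1)) x.2 := rfl

theorem mC_col {n m : ℕ} {ι : Type} (e : Fin n → (ι ≃ Fin m × Bool)) (f : ι → Equiv.Perm (Fin n))
    (x : Fin n × ι) : f (mC e f x).2 (mC e f x).1 = f x.2 x.1 := by
  unfold mC
  simp

theorem mC_mC {n m : ℕ} {ι : Type} (e : Fin n → (ι ≃ Fin m × Bool)) (f : ι → Equiv.Perm (Fin n))
    (x : Fin n × ι) : mC e f (mC e f x) = x := by
  have h1 := mC_col e f x
  have h2 : (mC e f (mC e f x)).2 = x.2 := by
    rw [mC_snd, h1, mC_snd, par_par]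
  refine Prod.ext ?_ h2
  have h3 := mC_col e f (mC e f x)
  rw [h1, h2] at h3
  exact (f x.2).injective h3

/-- The class relation. -/
abbrev rel {E : Type} (ρ γ : E → E) : E → E → Prop := fun x y => y = ρ x ∨ y = γ x

theorem mk_row {E : Type} (ρ γ : E → E) (x : E) :
    Quot.mk (rel ρ γ) (ρ x) = Quot.mk (rel ρ γ) x := by
  symm
  apply Quot.sound
  exact Or.inl rfl

theorem mk_col {E : Type} (ρ γ : E → E) (x : E) :
    Quot.mk (rel ρ γ) (γ x) = Quot.mk (rel ρ γ) x := by
  symm
  apply Quot.sound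
  exact Or.inr rfl

/-- A set of cells closed under two involutions contains the class. -/
theorem mem_of_closed {E : Type} (ρ γ : E → E) (hρ : ∀ x, ρ (ρ x) = x) (hγ : ∀ x, γ (γ x) = x)
    (Z : E → Prop) (h1 : ∀ x, Z x → Z (ρ x)) (h2 : ∀ x, Z x → Z (γ x)) {x y : E} (hx : Z x)
    (h : Quot.mk (rel ρ γ) y = Quot.mk (rel ρ γ) x) : Z y := by
  have h3 : ∀ a b : E, rel ρ γ a b → Z a = Z b := by
    intro a b hab
    apply propext
    rcases hab with rfl | rfl
    · exact ⟨fun h => h1 _ h, fun h => by have := h1 _ h; rwa [hρ] at this⟩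
    · exact ⟨fun h => h2 _ h, fun h => by have := h2 _ h; rwa [hγ] at this⟩
  have h4 := congrArg (Quot.lift Z h3) h
  change Z y = Z x at h4
  rw [h4]
  exact hx

end Close

open Close

theorem close_unique {n m : ℕ} {ι : Type} (side : ι → Bool) (e e' : Fin n → (ι ≃ Fin m × Bool))
    (he : ∀ r x, side (par (e r) x) ≠ side x) (he' : ∀ r x, side (par (e' r) x) ≠ side x)
    (lam : ι → Fin n) (hlam : Function.Injective lam) (ω : Equiv.Perm (Fin n))
    (L L' : Fin n → Equiv.Perm (Fin n)) (x : Fin n × ι)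
    (hag : agr ω (pos ω (lam x.2) x.1) L L')
    (h : lst ω lam (mR e) (mC e' fun i => L (lam i)) x)
    (h' : lst ω lam (mR e) (mC e' fun i => L' (lam i)) x) :
    L (lam x.2) x.1 = L' (lam x.2) x.1 := by
  have hfin : Finite ι := Finite.of_injective lam hlam
  set γ : Fin n × ι → Fin n × ι := mC e' fun i => L (lam i) with hγ
  set γ' : Fin n × ι → Fin n × ι := mC e' fun i => L' (lam i) with hγ'
  have hsρ : ∀ y : Fin n × ι, side (mR e y).2 ≠ side y.2 := fun y => he _ _
  have hsγ : ∀ y, side (γ y).2 ≠ side y.2 := fun y => he' _ _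
  set T : Fin n × ι → Fin n × ι := fun y => γ (mR e y) with hT
  set T' : Fin n × ι → Fin n × ι := fun y => γ' (mR e y) with hT'
  have hTs : ∀ y, side (T y).2 = side y.2 := by
    intro y
    have h1 := hsρ y
    have h2 := hsγ (mR e y)
    change side (γ (mR e y)).2 = _
    cases h3 : side y.2 <;> cases h4 : side (mR e y).2 <;> cases h5 : side (γ (mR e y)).2 <;>
      simp_all
  have hTis : ∀ i, side (T^[i] x).2 = side x.2 := by
    intro i
    induction i with
    | zero => rfl
    | succ i ih => rw [Function.iterate_succ_apply', hTs, ih]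
  have hcl : ∀ i, Quot.mk (rel (mR e) γ) (T^[i] x) = Quot.mk (rel (mR e) γ) x := by
    intro i
    induction i with
    | zero => rfl
    | succ i ih =>
      rw [Function.iterate_succ_apply']
      change Quot.mk _ (γ (mR e _)) = _
      rw [mk_col, mk_row, ih]
  have hcl' : ∀ i, Quot.mk (rel (mR e) γ') (T'^[i] x) = Quot.mk (rel (mR e) γ') x := by
    intro i
    induction i with
    | zero => rfl
    | succ i ih =>
      rw [Function.iterate_succ_apply']
      change Quot.mk _ (γ' (mR e _)) = _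
      rw [mk_col, mk_row, ih]
  -- the partner cell
  have key : ∀ i, T'^[i] x = T^[i] x → γ' (mR e (T^[i] x)) = γ (mR e (T^[i] x)) ∧
      L (lam (mR e (T^[i] x)).2) (mR e (T^[i] x)).1 =
        L' (lam (mR e (T^[i] x)).2) (mR e (T^[i] x)).1 := by
    intro i hi
    set z := mR e (T^[i] x) with hz
    have hzne : z ≠ x := by
      intro h1
      have h2 := hsρ (T^[i] x)
      rw [← hz, h1, hTis i] at h2
      exact h2 rfl
    have hzc : Quot.mk (rel (mR e) γ) z = Quot.mk (rel (mR e) γ) x := by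
      rw [hz, mk_row, hcl]
    have hzc' : Quot.mk (rel (mR e) γ') z = Quot.mk (rel (mR e) γ') x := by
      rw [hz, mk_row, ← hi, hcl']
    have hzp : L (lam z.2) z.1 = L' (lam z.2) z.1 := hag _ _ (h z hzc hzne)
    refine ⟨?_, hzp⟩
    have hs : (γ' z).2 = (γ z).2 := by
      rw [hγ, hγ', mC_snd, mC_snd, hzp]
    have hc : L (lam (γ z).2) (γ z).1 = L (lam z.2) z.1 := mC_col e' (fun i => L (lam i)) z
    have hc' : L' (lam (γ' z).2) (γ' z).1 = L' (lam z.2) z.1 :=
      mC_col e' (fun i => L' (lam i)) z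
    refine Prod.ext ?_ hs
    by_cases h1 : γ z = x
    · by_cases h2 : γ' z = x
      · rw [h1, h2]
      · have h3 := hag _ _ (h' (γ' z) (by rw [← hzc', mk_col]) h2)
        rw [hc', ← hzp, ← hc, hs] at h3
        exact (L (lam (γ z).2)).injective h3
    · have h3 := hag _ _ (h (γ z) (by rw [← hzc, mk_col]) h1)
      rw [hc, hzp, ← hc', hs] at h3
      exact (L' (lam (γ z).2)).injective h3
  have hall : ∀ i, T'^[i] x = T^[i] x := by
    intro i
    induction i with
    | zero => rfl
    | succ i ih =>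
      rw [Function.iterate_succ_apply', Function.iterate_succ_apply', ih]
      exact (key i ih).1
  have hinj : Function.Injective T := by
    intro a b hab
    have h1 : γ (mR e a) = γ (mR e b) := hab
    have h2 := congrArg γ h1
    rw [hγ, mC_mC, mC_mC] at h2
    have h3 := congrArg (mR e) h2
    rwa [mR_mR, mR_mR] at h3
  have hper : x ∈ Function.periodicPts T := hinj.mem_periodicPts x
  obtain ⟨l, hl, hlx⟩ := hper
  obtain ⟨i, rfl⟩ : ∃ i, l = i + 1 := ⟨l - 1, by omega⟩
  have h1 : T (T^[i] x) = x := by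
    have h2 : T^[i + 1] x = x := hlx
    rwa [Function.iterate_succ_apply'] at h2
  have h2 := key i (hall i)
  have h3 : γ (mR e (T^[i] x)) = x := h1
  have h4 : γ' (mR e (T^[i] x)) = x := by rw [h2.1, h3]
  have hc : L (lam (γ (mR e (T^[i] x))).2) (γ (mR e (T^[i] x))).1 =
      L (lam (mR e (T^[i] x)).2) (mR e (T^[i] x)).1 := mC_col e' (fun i => L (lam i)) _
  have hc' : L' (lam (γ' (mR e (T^[i] x))).2) (γ' (mR e (T^[i] x))).1 =
      L' (lam (mR e (T^[i] x)).2) (mR e (T^[i] x)).1 := mC_col e' (fun i => L' (lam i)) _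
  rw [h3] at hc
  rw [h4] at hc'
  rw [hc, hc', h2.2]

/-- Whether `x` is the last cell of its class depends only on the cells up to `x`. -/
theorem lst_congr {n m : ℕ} {ι : Type} (e e' : Fin n → (ι ≃ Fin m × Bool))
    (lam : ι → Fin n) (hlam : Function.Injective lam) (ω : Equiv.Perm (Fin n))
    (L L' : Fin n → Equiv.Perm (Fin n)) (x : Fin n × ι)
    (hag : agr ω (pos ω (lam x.2) x.1 + 1) L L')
    (h : lst ω lam (mR e) (mC e' fun i => L (lam i)) x) :
    lst ω lam (mR e) (mC e' fun i => L' (lam i)) x := by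
  set γ : Fin n × ι → Fin n × ι := mC e' fun i => L (lam i) with hγ
  set γ' : Fin n × ι → Fin n × ι := mC e' fun i => L' (lam i) with hγ'
  -- cells of the class are at most `x`
  have hle : ∀ y, Quot.mk (rel (mR e) γ) y = Quot.mk (rel (mR e) γ) x →
      L (lam y.2) y.1 = L' (lam y.2) y.1 := by
    intro y hy
    by_cases h1 : y = x
    · subst h1
      exact hag _ _ (Nat.lt_succ_self _)
    · exact hag _ _ ((h y hy h1).trans (Nat.lt_succ_self _))
  have hgg : ∀ y, Quot.mk (rel (mR e) γ) y = Quot.mk (rel (mR e) γ) x → γ' y = γ y := by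
    intro y hy
    have h1 := hle y hy
    have h2 : Quot.mk (rel (mR e) γ) (γ y) = Quot.mk (rel (mR e) γ) x := by
      rw [mk_col, hy]
    have h3 := hle (γ y) h2
    have hs : (γ' y).2 = (γ y).2 := by
      rw [hγ, hγ', mC_snd, mC_snd, h1]
    have hc : L (lam (γ y).2) (γ y).1 = L (lam y.2) y.1 := mC_col e' (fun i => L (lam i)) y
    have hc' : L' (lam (γ' y).2) (γ' y).1 = L' (lam y.2) y.1 :=
      mC_col e' (fun i => L' (lam i)) y
    refine Prod.ext ?_ hs
    rw [hc, h1, ← hc', hs] at h3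
    exact (L' (lam (γ y).2)).injective h3
  intro y hy hne
  refine h y ?_ hne
  exact mem_of_closed (mR e) γ' (mR_mR e) (mC_mC e' _)
    (fun y => Quot.mk (rel (mR e) γ) y = Quot.mk (rel (mR e) γ) x)
    (fun y hy => by rw [mk_row, hy]) (fun y hy => by rw [hgg y hy, mk_col, hy]) rfl hy

theorem pos_inj {n : ℕ} {ι : Type} (lam : ι → Fin n) (hlam : Function.Injective lam)
    (ω : Equiv.Perm (Fin n)) {x y : Fin n × ι}
    (h : pos ω (lam x.2) x.1 = pos ω (lam y.2) y.1) : x = y := by
  unfold pos at h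
  have hx := (ω x.1).2
  have hy := (ω y.1).2
  have hn : 0 < n := by omega
  have h1 : (lam x.2).val = (lam y.2).val := by
    have h2 : ((ω x.1).val + (lam x.2).val * n) / n = ((ω y.1).val + (lam y.2).val * n) / n := by
      rw [Nat.add_comm, h, Nat.add_comm]
    rw [Nat.add_mul_div_right _ _ hn, Nat.div_eq_of_lt hx,
      Nat.add_mul_div_right _ _ hn, Nat.div_eq_of_lt hy] at h2
    omega
  have h3 : (ω x.1).val = (ω y.1).val := by
    rw [h1] at h
    omega
  exact Prod.ext (ω.injective (Fin.ext h3)) (hlam (Fin.ext h1))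

open Classical in
/-- The number of classes is the number of last cells. -/
theorem ncl_eq {n : ℕ} {ι : Type} [Fintype ι] (ρ γ : Fin n × ι → Fin n × ι)
    (lam : ι → Fin n) (hlam : Function.Injective lam) (ω : Equiv.Perm (Fin n)) :
    ncl ρ γ = (univ.filter fun x : Fin n × ι => lst ω lam ρ γ x).card := by
  unfold ncl
  have hft : Fintype (Quot (rel ρ γ)) := Fintype.ofFinite _
  have h0 : Nat.card (Quot fun x y : Fin n × ι => y = ρ x ∨ y = γ x) =
      (univ : Finset (Quot (rel ρ γ))).card := by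
    rw [Finset.card_univ, ← Nat.card_eq_fintype_card]
  rw [h0]
  symm
  apply Finset.card_bij (fun x _ => Quot.mk (rel ρ γ) x)
  · intro x _
    exact mem_univ _
  · intro x hx y hy hxy
    by_contra hne
    have h1 := (mem_filter.1 hx).2 y hxy.symm (Ne.symm hne)
    have h2 := (mem_filter.1 hy).2 x hxy hne
    omega
  · intro q _
    obtain ⟨x₀, rfl⟩ := Quot.exists_rep q
    have hne : (univ.filter fun x : Fin n × ι =>
        Quot.mk (rel ρ γ) x = Quot.mk (rel ρ γ) x₀).Nonempty := ⟨x₀, by simp⟩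
    obtain ⟨x, hx, hmax⟩ := Finset.exists_max_image _
      (fun x : Fin n × ι => pos ω (lam x.2) x.1) hne
    have hx1 := (mem_filter.1 hx).2
    refine ⟨x, ?_, hx1⟩
    rw [mem_filter]
    refine ⟨mem_univ _, ?_⟩
    intro y hy hne'
    have h1 := hmax y (mem_filter.2 ⟨mem_univ _, by
      have : Quot.mk (rel ρ γ) y = Quot.mk (rel ρ γ) x := hy
      rw [this, hx1]⟩)
    rcases Nat.lt_or_eq_of_le h1 with h2 | h2
    · exact h2
    · exact absurd (pos_inj lam hlam ω h2) hne'

end Pool.Agent.Helper3.EL
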