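import Pool.Agent.Helper84.TL.Defs
import Pool.Agent.Helper85.TB.Halves

/-!
# Project EL (MP_56afde): empty boxes of random Latin squares, the bound `C n ^ 2`. Definitions

As in projects TB and TL, a Latin square of order `n` is a family of `n` pairwise disjoint
permutations `L s : row ↦ column` (`s` runs over the symbols), `ls n` is the set of all of them,
and `Gr n` are the bipartite graphs between rows and columns.
-/

set_option autoImplicit false

namespace Pool.Agent.Helper3.EL

open Finset Pool.Agent.Lead.TB Pool.Agent.Lead.TB.Halves Pool.Agent.Helper84.TL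

/-- The number of classes of the equivalence relation generated by two maps. -/
noncomputable def ncl {E : Type} (ρ γ : E → E) : ℕ :=
  Nat.card (Quot fun x y : E => y = ρ x ∨ y = γ x)

/-- The average number of circuits of the pairing systems of `G` compatible with `K`. -/
noncomputable def wK {n : ℕ} (m : ℕ) (G K : Gr n) : ℝ :=
  (∑ l ∈ com G m K, (ncl (parR G l) (parC G l) : ℝ)) / (com G m K).card

/-- The first half of a family indexed by `k + 1` bits. -/
def lft {α : Type} {k : ℕ} (f : (Fin (k + 1) → Bool) → α) : (Fin k → Bool) → α :=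
  fun x => f (Fin.cons true x)

/-- The second half of a family indexed by `k + 1` bits. -/
def rgt {α : Type} {k : ℕ} (f : (Fin (k + 1) → Bool) → α) : (Fin k → Bool) → α :=
  fun x => f (Fin.cons false x)

/-- The union of a family of permutations. -/
def un {n : ℕ} {ι : Type} [Fintype ι] (f : ι → Equiv.Perm (Fin n)) : Gr n :=
  fun r => univ.image fun i => f i r

/-- The sum of `wK` over the nodes of the binary tree. -/
noncomputable def tw {n : ℕ} : (k : ℕ) → ((Fin k → Bool) → Equiv.Perm (Fin n)) → ℝ
  | 0, _ => 0
  | k + 1, f => wK (2 ^ k) (un f) (un (lft f)) + tw k (lft f) + tw k (rgt f)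

/-- The constant of the lower bound of TB. -/
noncomputable def KK (k : ℕ) : ℝ := ((2 ^ k).factorial : ℝ) ^ 2 / ((2 : ℝ) ^ k) ^ (2 ^ k)

/-- The members of an injective family of symbols. -/
def rg {n k : ℕ} (lam : (Fin k → Bool) ↪ Fin n) : Finset (Fin n) := univ.map lam

/-- The injective families of symbols outside `T₃`, indexed by `k` bits. -/
abbrev Emb {n : ℕ} (k : ℕ) (T₃ : Finset (Fin n)) : Type := (Fin k → Bool) ↪ {s : Fin n // s ∉ T₃}

/-- The family of symbols of a member of `Emb`. -/
def sy {n k : ℕ} {T₃ : Finset (Fin n)} (e : Emb k T₃) : (Fin k → Bool) ↪ Fin n :=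
  e.trans (Function.Embedding.subtype _)

/-! ### Pairings in terms of symbols -/

/-- The row move on the cells `(row, index)`. -/
def mR {n m : ℕ} {ι : Type} (e : Fin n → (ι ≃ Fin m × Bool)) (x : Fin n × ι) : Fin n × ι :=
  (x.1, par (e x.1) x.2)

/-- The column move on the cells `(row, index)`, for the family `f` of permutations. -/
def mC {n m : ℕ} {ι : Type} (e : Fin n → (ι ≃ Fin m × Bool)) (f : ι → Equiv.Perm (Fin n))
    (x : Fin n × ι) : Fin n × ι :=
  ((f (par (e (f x.2 x.1)) x.2)).symm (f x.2 x.1), par (e (f x.2 x.1)) x.2)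

/-- The labellings which pair the two sides. -/
def slab {ι : Type} [Fintype ι] [DecidableEq ι] (m : ℕ) (side : ι → Bool) :
    Finset (ι ≃ Fin m × Bool) :=
  univ.filter fun e => ∀ i : Fin m, side (e.symm (i, true)) ≠ side (e.symm (i, false))

/-- The systems of labellings at all rows and columns which pair the two sides. -/
def sys {ι : Type} [Fintype ι] [DecidableEq ι] (n m : ℕ) (side : ι → Bool) :
    Finset ((Fin n → (ι ≃ Fin m × Bool)) × (Fin n → (ι ≃ Fin m × Bool))) :=
  (Fintype.piFinset fun _ => slab m side) ×ˢ (Fintype.piFinset fun _ => slab m side)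

/-- The members of `f` on one side. -/
def unS {n : ℕ} {ι : Type} [Fintype ι] (side : ι → Bool) (f : ι → Equiv.Perm (Fin n)) : Gr n :=
  fun r => (univ.filter fun i => side i = true).image fun i => f i r

/-! ### The reveal order -/

/-- The position of the cell `(row r, symbol s)` if the symbols are revealed one after the other
and the rows are ordered by `ω`. -/
def pos {n : ℕ} (ω : Equiv.Perm (Fin n)) (s r : Fin n) : ℕ := s.val * n + (ω r).val

/-- The columns which are free for the cell `(row r, symbol s)`, given the earlier cells. -/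
def avl {n : ℕ} (ω : Equiv.Perm (Fin n)) (L : Fin n → Equiv.Perm (Fin n)) (s r : Fin n) :
    Finset (Fin n) :=
  univ.filter fun c => (∀ s', s' < s → L s' r ≠ c) ∧ ∀ r', ω r' < ω r → L s r' ≠ c

/-- The families agree on the cells before the position `t`. -/
def agr {n : ℕ} (ω : Equiv.Perm (Fin n)) (t : ℕ) (L L' : Fin n → Equiv.Perm (Fin n)) : Prop :=
  ∀ s r, pos ω s r < t → L s r = L' s r

/-- The cell `x` is the last one of its class, for the moves `ρ, γ` on cells `(row, index)`,
where the index `i` stands for the symbol `lam i`. -/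
def lst {n : ℕ} {ι : Type} (ω : Equiv.Perm (Fin n)) (lam : ι → Fin n)
    (ρ γ : Fin n × ι → Fin n × ι) (x : Fin n × ι) : Prop :=
  ∀ y, Quot.mk (fun x y : Fin n × ι => y = ρ x ∨ y = γ x) y = Quot.mk _ x → y ≠ x →
    pos ω (lam y.2) y.1 < pos ω (lam x.2) x.1

/-! ### Multigraphs -/

/-- A `d`-regular bipartite multigraph with edge set `E`. -/
def MReg {n : ℕ} (E : Type) [Fintype E] (row col : E → Fin n) (d : ℕ) : Prop :=
  (∀ r, (univ.filter fun e => row e = r).card = d) ∧
    ∀ c, (univ.filter fun e => col e = c).card = d

/-- The proper edge colourings with colours in `ι`. -/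
def mfac {n : ℕ} (ι : Type) [Fintype ι] [DecidableEq ι] (E : Type) [Fintype E] [DecidableEq E]
    (row col : E → Fin n) : Finset (E → ι) :=
  univ.filter fun f => ∀ e e', e ≠ e' → (row e = row e' ∨ col e = col e') → f e ≠ f e'

end Pool.Agent.Helper3.EL
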