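import Pool.Agent.Helper3.EL.FinalOf
import Pool.Agent.Helper84.EL.Box

/-!
# Project EL: the final statement
-/

set_option autoImplicit false

namespace Pool.Agent.Helper3.EL

open Finset Pool.Agent.Lead.TB Pool.Agent.Helper84.TL Pool.Agent.Helper41.Perm

theorem union_bound : UnionBound :=
  union_bound_of fun n hn T₁ T₂ T₃ h1 h2 => one_box hn T₁ T₂ T₃ h1 h2

theorem final : ∃ C : ℝ, 0 < C ∧
      (∀ n : ℕ, 1 ≤ n →
        (Nat.card {A : (Fin 3 → Fin n) → Bool // IsPerm (d := 2) A ∧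
          C * (n : ℝ) ^ 2 < (eps (d := 2) A : ℝ)} : ℝ) ≤
        Real.exp (-n) * (Nat.card {A : (Fin 3 → Fin n) → Bool // IsPerm (d := 2) A} : ℝ)) ∧
      Filter.Tendsto (fun n : ℕ =>
        (Nat.card {A : (Fin 3 → Fin n) → Bool // IsPerm (d := 2) A ∧
          (eps (d := 2) A : ℝ) ≤ C * (n : ℝ) ^ 2} : ℝ) /
        (Nat.card {A : (Fin 3 → Fin n) → Bool // IsPerm (d := 2) A} : ℝ))
        Filter.atTop (nhds 1) :=
  final_of_union union_bound

end Pool.Agent.Helper3.EL
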