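import Pool.Agent.Helper3.EL.Defs

/-!
# Project EL, module R: the union bound
-/

set_option autoImplicit false

namespace Pool.Agent.Helper3.EL

open Finset Pool.Agent.Lead.TB Pool.Agent.Lead.TB.Halves Pool.Agent.Helper84.TL

/-- The statement of module Q. -/
def OneBox : Prop := ∀ (n : ℕ), 1 ≤ n → ∀ T₁ T₂ T₃ : Finset (Fin n), 1 ≤ T₃.card →
    (T₃.card : ℝ) ≤ n / (100 * (1 + Real.log n) ^ 4) →
    ((emp T₁ T₂ T₃).card : ℝ) ≤
      (Real.exp (2 * n - Real.log 2 / 2 * (T₁.card * T₂.card * T₃.card / n)) +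
        Real.exp (-(7 * n))) * ((ls n).card : ℝ)

namespace Un

theorem eventually_large : ∃ n₀ : ℕ, 1 ≤ n₀ ∧ ∀ n : ℕ, n₀ ≤ n →
    48 * 10 ^ 6 * (1 + Real.log n) ^ 12 ≤ (n : ℝ) := by
  have h1 := (Real.isLittleO_pow_log_id_atTop (n := 12)).bound
    (c := 1 / (48 * 10 ^ 6 * 2 ^ 12)) (by positivity)
  have h2 : ∀ᶠ x : ℝ in Filter.atTop, 1 ≤ Real.log x :=
    Real.tendsto_log_atTop.eventually_ge_atTop 1
  have h3 := (h1.and h2).and (Filter.eventually_ge_atTop (1 : ℝ))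
  obtain ⟨n₀, hn₀⟩ := Filter.eventually_atTop.1 (tendsto_natCast_atTop_atTop.eventually h3)
  refine ⟨max n₀ 1, le_max_right _ _, fun n hn => ?_⟩
  obtain ⟨⟨h4, h5⟩, h6⟩ := hn₀ n ((le_max_left _ _).trans hn)
  have h7 : (0 : ℝ) ≤ Real.log n := by linarith
  rw [Real.norm_of_nonneg (pow_nonneg h7 12), id, Real.norm_of_nonneg (by linarith)] at h4
  have h8 : (1 + Real.log n) ^ 12 ≤ (2 * Real.log n) ^ 12 :=
    pow_le_pow_left₀ (by linarith) (by linarith) 12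
  rw [mul_pow] at h8
  nlinarith

theorem shrink {n : ℕ} (hbig : 48 * 10 ^ 6 * (1 + Real.log n) ^ 12 ≤ (n : ℝ)) (hn : 1 ≤ n)
    {a b c : ℕ} (hca : c ≤ a) (hcb : c ≤ b) (hv : 24 * (n : ℝ) ^ 2 < (a : ℝ) * b * c) :
    ∃ c' : ℕ, c' ≤ c ∧ 1 ≤ c' ∧ (c' : ℝ) ≤ n / (100 * (1 + Real.log n) ^ 4) ∧
      24 * (n : ℝ) ^ 2 ≤ (a : ℝ) * b * c' := by
  have hn' : (1 : ℝ) ≤ n := by exact_mod_cast hn
  have hL : (1 : ℝ) ≤ 1 + Real.log n := by
    have := Real.log_nonneg hn'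
    linarith
  set l := 1 + Real.log n with hl
  have hl0 : 0 < l := by linarith
  set M : ℝ := n / (100 * l ^ 4) with hM
  have hc1 : 1 ≤ c := by
    rcases Nat.eq_zero_or_pos c with h | h
    · subst h
      simp at hv
      nlinarith
    · exact h
  by_cases h : (c : ℝ) ≤ M
  · exact ⟨c, le_refl _, hc1, h, hv.le⟩
  · push Not at h
    have hM2 : 2 ≤ M := by
      rw [hM, le_div_iff₀ (by positivity)]
      have h1 : l ^ 4 ≤ l ^ 12 := pow_le_pow_right₀ hL (by norm_num)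
      nlinarith [pow_pos hl0 4, pow_pos hl0 12]
    have hfl : M - 1 < ⌊M⌋₊ := by
      have := Nat.lt_floor_add_one M
      linarith
    have hfl2 : (⌊M⌋₊ : ℝ) ≤ M := Nat.floor_le (by linarith)
    have hfc : ⌊M⌋₊ ≤ c := by
      have : (⌊M⌋₊ : ℝ) ≤ c := hfl2.trans h.le
      exact_mod_cast this
    refine ⟨⌊M⌋₊, hfc, ?_, hfl2, ?_⟩
    · exact Nat.le_floor (by push_cast; linarith)
    · have ha : M ≤ a := h.le.trans (by exact_mod_cast hca)
      have hb : M ≤ b := h.le.trans (by exact_mod_cast hcb)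
      have hf : M / 2 ≤ (⌊M⌋₊ : ℝ) := by linarith
      have h1 : M * M * (M / 2) ≤ (a : ℝ) * b * (⌊M⌋₊ : ℝ) := by
        gcongr
      refine le_trans ?_ h1
      have h2 : M * M * (M / 2) = (n : ℝ) ^ 3 / (2 * 10 ^ 6 * l ^ 12) := by
        rw [hM]
        field_simp
        ring
      rw [h2, le_div_iff₀ (by positivity)]
      calc 24 * (n : ℝ) ^ 2 * (2 * 10 ^ 6 * l ^ 12) = (n : ℝ) ^ 2 * (48 * 10 ^ 6 * l ^ 12) := by
            ring
        _ ≤ (n : ℝ) ^ 2 * n := by gcongr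
        _ = (n : ℝ) ^ 3 := by ring

theorem final_num {n : ℕ} (hn : 1 ≤ n) (x : ℝ) (hx : 24 * (n : ℝ) ^ 2 ≤ x) :
    (2 : ℝ) ^ (3 * n) * (Real.exp (2 * n - Real.log 2 / 2 * (x / n)) + Real.exp (-(7 * n))) ≤
      Real.exp (-n) / 3 := by
  have hn' : (1 : ℝ) ≤ n := by exact_mod_cast hn
  have hlog1 := Real.log_two_gt_d9
  have hlog2 := Real.log_two_lt_d9
  have h1 : (2 : ℝ) ^ (3 * n) = Real.exp (3 * n * Real.log 2) := by
    rw [mul_comm _ (Real.log 2), ← Real.rpow_def_of_pos (by norm_num)]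
    have h : (3 * (n : ℝ)) = ((3 * n : ℕ) : ℝ) := by push_cast; ring
    rw [h, Real.rpow_natCast]
  have h2 : 24 * (n : ℝ) ≤ x / n := by
    rw [le_div_iff₀ (by linarith)]
    calc 24 * (n : ℝ) * n = 24 * (n : ℝ) ^ 2 := by ring
      _ ≤ x := hx
  have h3 : Real.exp (2 * n - Real.log 2 / 2 * (x / n)) ≤ Real.exp (-(6.3 * n)) := by
    apply Real.exp_le_exp.2
    have h4 : Real.log 2 / 2 * (24 * n) ≤ Real.log 2 / 2 * (x / n) := by gcongr
    nlinarith
  have h4 : Real.exp (-(7 * (n : ℝ))) ≤ Real.exp (-(6.3 * n)) := by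
    apply Real.exp_le_exp.2
    linarith
  have h5 : (6 : ℝ) ≤ Real.exp (3.2 * n) := by
    have h6 : Real.exp 3.2 ≤ Real.exp (3.2 * n) := by
      apply Real.exp_le_exp.2
      linarith
    have h7 : (6 : ℝ) ≤ Real.exp 3.2 := by
      have h8 : Real.exp 3.2 = Real.exp 1 ^ (3 : ℕ) * Real.exp 0.2 := by
        rw [← Real.exp_nat_mul, ← Real.exp_add]
        norm_num
      rw [h8]
      have h9 := Real.exp_one_gt_d9
      have h10 : (1 : ℝ) ≤ Real.exp 0.2 := Real.one_le_exp (by norm_num)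
      have h11 : (2.7 : ℝ) ^ 3 ≤ Real.exp 1 ^ 3 := by gcongr; linarith
      nlinarith
    linarith
  calc (2 : ℝ) ^ (3 * n) * (Real.exp (2 * n - Real.log 2 / 2 * (x / n)) + Real.exp (-(7 * n)))
      ≤ Real.exp (3 * n * Real.log 2) * (Real.exp (-(6.3 * n)) + Real.exp (-(6.3 * n))) := by
        rw [h1]
        gcongr
    _ = 2 * Real.exp (3 * n * Real.log 2 + -(6.3 * n)) := by
        rw [Real.exp_add]
        ring
    _ ≤ 2 * Real.exp (-n + -(3.2 * n)) := by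
        apply mul_le_mul_of_nonneg_left _ (by norm_num)
        apply Real.exp_le_exp.2
        nlinarith
    _ = Real.exp (-n) * (2 / Real.exp (3.2 * n)) := by
        rw [Real.exp_add, Real.exp_neg (3.2 * (n : ℝ))]
        ring
    _ ≤ Real.exp (-n) * (2 / 6) := by gcongr
    _ = Real.exp (-n) / 3 := by ring

end Un

open Un in
theorem union_bound_of (H : OneBox) : ∃ C : ℝ, 0 < C ∧ ∀ n : ℕ, 1 ≤ n →
    (((ls n).filter fun σ => ∃ T₁ T₂ T₃ : Finset (Fin n), T₃.card ≤ T₁.card ∧ T₃.card ≤ T₂.card ∧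
        cnt σ T₁ T₂ T₃ = 0 ∧ C * (n : ℝ) ^ 2 <
          (T₁.card : ℝ) * T₂.card * T₃.card).card : ℝ) ≤
      Real.exp (-n) / 3 * ((ls n).card : ℝ) := by
  classical
  obtain ⟨n₀, hn₀1, hn₀⟩ := eventually_large
  refine ⟨max 24 n₀, by positivity, fun n hn => ?_⟩
  have hn' : (1 : ℝ) ≤ n := by exact_mod_cast hn
  by_cases hlt : n < n₀
  · have h0 : ((ls n).filter fun σ => ∃ T₁ T₂ T₃ : Finset (Fin n), T₃.card ≤ T₁.card ∧
        T₃.card ≤ T₂.card ∧ cnt σ T₁ T₂ T₃ = 0 ∧ max 24 (n₀ : ℝ) * (n : ℝ) ^ 2 <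
          (T₁.card : ℝ) * T₂.card * T₃.card) = ∅ := by
      apply filter_eq_empty_iff.2
      rintro σ - ⟨T₁, T₂, T₃, -, -, -, h⟩
      have h1 : (T₁.card : ℝ) ≤ n := by
        exact_mod_cast (card_le_univ T₁).trans (by simp)
      have h2 : (T₂.card : ℝ) ≤ n := by
        exact_mod_cast (card_le_univ T₂).trans (by simp)
      have h3 : (T₃.card : ℝ) ≤ n := by
        exact_mod_cast (card_le_univ T₃).trans (by simp)
      have h4 : (T₁.card : ℝ) * T₂.card * T₃.card ≤ n * n * n := by gcongr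
      have h5 : (n : ℝ) ≤ max 24 (n₀ : ℝ) :=
        le_trans (by exact_mod_cast hlt.le) (le_max_right _ _)
      have h6 : (n : ℝ) * (n : ℝ) ^ 2 ≤ max 24 (n₀ : ℝ) * (n : ℝ) ^ 2 := by gcongr
      nlinarith
    rw [h0]
    simp only [card_empty, Nat.cast_zero]
    positivity
  · push Not at hlt
    have hbig := hn₀ n hlt
    -- the boxes
    let B : Finset (Finset (Fin n) × Finset (Fin n) × Finset (Fin n)) :=
      univ.filter fun T => 1 ≤ T.2.2.card ∧
        (T.2.2.card : ℝ) ≤ n / (100 * (1 + Real.log n) ^ 4) ∧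
        24 * (n : ℝ) ^ 2 ≤ (T.1.card : ℝ) * T.2.1.card * T.2.2.card
    have hsub : ((ls n).filter fun σ => ∃ T₁ T₂ T₃ : Finset (Fin n), T₃.card ≤ T₁.card ∧
        T₃.card ≤ T₂.card ∧ cnt σ T₁ T₂ T₃ = 0 ∧ max 24 (n₀ : ℝ) * (n : ℝ) ^ 2 <
          (T₁.card : ℝ) * T₂.card * T₃.card) ⊆ B.biUnion fun T => emp T.1 T.2.1 T.2.2 := by
      intro σ hσ
      obtain ⟨hσ1, T₁, T₂, T₃, h1, h2, h3, h4⟩ := mem_filter.1 hσ
      have h5 : 24 * (n : ℝ) ^ 2 < (T₁.card : ℝ) * T₂.card * T₃.card := by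
        refine lt_of_le_of_lt ?_ h4
        gcongr
        exact le_max_left _ _
      obtain ⟨c', hc1, hc2, hc3, hc4⟩ := shrink hbig hn h1 h2 h5
      obtain ⟨T₃', hT1, hT2⟩ := Finset.exists_subset_card_eq hc1
      rw [mem_biUnion]
      refine ⟨(T₁, T₂, T₃'), ?_, ?_⟩
      · rw [mem_filter]
        refine ⟨mem_univ _, ?_, ?_, ?_⟩
        · simpa [hT2] using hc2
        · simpa [hT2] using hc3
        · simpa [hT2] using hc4
      · simp only [emp, mem_filter]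
        refine ⟨hσ1, ?_⟩
        unfold cnt at h3 ⊢
        rw [Finset.sum_eq_zero_iff] at h3 ⊢
        exact fun s hs => h3 s (hT1 hs)
    have hcardB : (B.card : ℝ) ≤ 2 ^ (3 * n) := by
      have h1 : B.card ≤ 2 ^ (3 * n) := by
        refine (card_le_univ _).trans (le_of_eq ?_)
        rw [Fintype.card_prod, Fintype.card_prod, Fintype.card_finset, Fintype.card_fin]
        ring
      exact_mod_cast h1
    calc ((((ls n).filter fun σ => ∃ T₁ T₂ T₃ : Finset (Fin n), T₃.card ≤ T₁.card ∧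
        T₃.card ≤ T₂.card ∧ cnt σ T₁ T₂ T₃ = 0 ∧ max 24 (n₀ : ℝ) * (n : ℝ) ^ 2 <
          (T₁.card : ℝ) * T₂.card * T₃.card).card : ℕ) : ℝ)
        ≤ ((B.biUnion fun T => emp T.1 T.2.1 T.2.2).card : ℝ) := by
          exact_mod_cast card_le_card hsub
      _ ≤ ∑ T ∈ B, ((emp T.1 T.2.1 T.2.2).card : ℝ) := by
          exact_mod_cast card_biUnion_le
      _ ≤ ∑ T ∈ B, (Real.exp (2 * n - Real.log 2 / 2 * (24 * (n : ℝ) ^ 2 / n)) +
            Real.exp (-(7 * n))) * ((ls n).card : ℝ) := by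
          refine Finset.sum_le_sum fun T hT => ?_
          obtain ⟨-, h1, h2, h3⟩ := mem_filter.1 hT
          refine (H n hn T.1 T.2.1 T.2.2 h1 h2).trans ?_
          gcongr
      _ = (B.card : ℝ) * ((Real.exp (2 * n - Real.log 2 / 2 * (24 * (n : ℝ) ^ 2 / n)) +
            Real.exp (-(7 * n))) * ((ls n).card : ℝ)) := by
          rw [Finset.sum_const, nsmul_eq_mul]
      _ ≤ 2 ^ (3 * n) * ((Real.exp (2 * n - Real.log 2 / 2 * (24 * (n : ℝ) ^ 2 / n)) +
            Real.exp (-(7 * n))) * ((ls n).card : ℝ)) := by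
          gcongr
      _ = 2 ^ (3 * n) * (Real.exp (2 * n - Real.log 2 / 2 * (24 * (n : ℝ) ^ 2 / n)) +
            Real.exp (-(7 * n))) * ((ls n).card : ℝ) := by ring
      _ ≤ Real.exp (-n) / 3 * ((ls n).card : ℝ) := by
          gcongr
          exact final_num hn _ le_rfl

end Pool.Agent.Helper3.EL
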