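import Pool.Agent.Helper84.TL.Final
import Pool.Agent.Helper3.EL.UnionOf

/-!
# Project EL: the final statement, from the union bound
-/

set_option autoImplicit false

namespace Pool.Agent.Helper3.EL

open Finset Pool.Agent.Lead.TB Pool.Agent.Helper84.TL Pool.Agent.Helper41.Perm

/-- The conclusion of module R. -/
def UnionBound : Prop := ∃ C : ℝ, 0 < C ∧ ∀ n : ℕ, 1 ≤ n →
    (((ls n).filter fun σ => ∃ T₁ T₂ T₃ : Finset (Fin n), T₃.card ≤ T₁.card ∧ T₃.card ≤ T₂.card ∧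
        cnt σ T₁ T₂ T₃ = 0 ∧ C * (n : ℝ) ^ 2 <
          (T₁.card : ℝ) * T₂.card * T₃.card).card : ℝ) ≤
      Real.exp (-n) / 3 * ((ls n).card : ℝ)

theorem exists_latin (n : ℕ) (hn : 1 ≤ n) :
    0 < Nat.card {A : (Fin 3 → Fin n) → Bool // IsPerm (d := 2) A} := by
  classical
  have : NeZero n := ⟨by omega⟩
  let σ : Fin n → Equiv.Perm (Fin n) := fun s => Equiv.addRight s
  have hσ : σ ∈ ls n := by
    simp only [ls, fac, mem_filter, mem_univ, true_and, implies_true]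
    intro i j hij r h
    exact hij (add_left_cancel h)
  have : Nonempty {A : (Fin 3 → Fin n) → Bool // IsPerm (d := 2) A} := ⟨⟨arr σ, arr_isPerm hσ⟩⟩
  exact Nat.card_pos

theorem final_of_union (hub : UnionBound) :
    ∃ C : ℝ, 0 < C ∧
      (∀ n : ℕ, 1 ≤ n →
        (Nat.card {A : (Fin 3 → Fin n) → Bool // IsPerm (d := 2) A ∧
          C * (n : ℝ) ^ 2 < (eps (d := 2) A : ℝ)} : ℝ) ≤
        Real.exp (-n) * (Nat.card {A : (Fin 3 → Fin n) → Bool // IsPerm (d := 2) A} : ℝ)) ∧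
      Filter.Tendsto (fun n : ℕ =>
        (Nat.card {A : (Fin 3 → Fin n) → Bool // IsPerm (d := 2) A ∧
          (eps (d := 2) A : ℝ) ≤ C * (n : ℝ) ^ 2} : ℝ) /
        (Nat.card {A : (Fin 3 → Fin n) → Bool // IsPerm (d := 2) A} : ℝ))
        Filter.atTop (nhds 1) := by
  classical
  obtain ⟨C, hC0, hC⟩ := hub
  have key : ∀ n : ℕ, 1 ≤ n →
        (Nat.card {A : (Fin 3 → Fin n) → Bool // IsPerm (d := 2) A ∧
          C * (n : ℝ) ^ 2 < (eps (d := 2) A : ℝ)} : ℝ) ≤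
        Real.exp (-n) * (Nat.card {A : (Fin 3 → Fin n) → Bool // IsPerm (d := 2) A} : ℝ) := by
    intro n hn
    have h0 := final_of n (fun _ => C * (n : ℝ) ^ 2) (Real.exp (-n)) (hC n hn)
      (Real.exp_pos _).le
    refine le_trans ?_ h0
    have h1 : ∀ A : (Fin 3 → Fin n) → Bool, (IsPerm (d := 2) A ∧
          C * (n : ℝ) ^ 2 < (eps (d := 2) A : ℝ)) →
        (IsPerm (d := 2) A ∧ ∃ T : Fin 3 → Finset (Fin n), BoxEmpty (d := 2) A T ∧
          C * (n : ℝ) ^ 2 < ∏ i, ((T i).card : ℝ)) := by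
      rintro A ⟨hA, hlt⟩
      exact ⟨hA, exists_box_of_lt_eps A (by positivity) hlt⟩
    have h2 : Nat.card {A : (Fin 3 → Fin n) → Bool // IsPerm (d := 2) A ∧
          C * (n : ℝ) ^ 2 < (eps (d := 2) A : ℝ)} ≤
        Nat.card {A : (Fin 3 → Fin n) → Bool // IsPerm (d := 2) A ∧
          ∃ T : Fin 3 → Finset (Fin n), BoxEmpty (d := 2) A T ∧
          C * (n : ℝ) ^ 2 < ∏ i, ((T i).card : ℝ)} :=
      Nat.card_le_card_of_injective (fun A => ⟨A.1, h1 A.1 A.2⟩)
        (fun A B h => Subtype.ext (by simpa using h))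
    exact_mod_cast h2
  refine ⟨C, hC0, key, ?_⟩
  have hexp : Filter.Tendsto (fun n : ℕ => 1 - Real.exp (-(n : ℝ))) Filter.atTop (nhds 1) := by
    have h1 : Filter.Tendsto (fun n : ℕ => Real.exp (-(n : ℝ))) Filter.atTop (nhds 0) :=
      Real.tendsto_exp_neg_atTop_nhds_zero.comp tendsto_natCast_atTop_atTop
    simpa using h1.const_sub 1
  have hsplit : ∀ n : ℕ, Nat.card {A : (Fin 3 → Fin n) → Bool // IsPerm (d := 2) A} =
      Nat.card {A : (Fin 3 → Fin n) → Bool // IsPerm (d := 2) A ∧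
          (eps (d := 2) A : ℝ) ≤ C * (n : ℝ) ^ 2} +
      Nat.card {A : (Fin 3 → Fin n) → Bool // IsPerm (d := 2) A ∧
          C * (n : ℝ) ^ 2 < (eps (d := 2) A : ℝ)} := by
    intro n
    simp only [Nat.card_eq_fintype_card, Fintype.card_subtype]
    rw [← Finset.card_filter_add_card_filter_not
      (fun A : (Fin 3 → Fin n) → Bool => (eps (d := 2) A : ℝ) ≤ C * (n : ℝ) ^ 2)]
    simp only [filter_filter, not_le]
  refine tendsto_of_tendsto_of_tendsto_of_le_of_le' hexp tendsto_const_nhds ?_ ?_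
  · filter_upwards [Filter.eventually_ge_atTop 1] with n hn
    have hpos : (0 : ℝ) < (Nat.card {A : (Fin 3 → Fin n) → Bool // IsPerm (d := 2) A} : ℝ) := by
      exact_mod_cast exists_latin n hn
    rw [le_div_iff₀ hpos]
    have h1 := key n hn
    have h2 := hsplit n
    have h3 : (Nat.card {A : (Fin 3 → Fin n) → Bool // IsPerm (d := 2) A} : ℝ) =
      (Nat.card {A : (Fin 3 → Fin n) → Bool // IsPerm (d := 2) A ∧
          (eps (d := 2) A : ℝ) ≤ C * (n : ℝ) ^ 2} : ℝ) +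
      (Nat.card {A : (Fin 3 → Fin n) → Bool // IsPerm (d := 2) A ∧
          C * (n : ℝ) ^ 2 < (eps (d := 2) A : ℝ)} : ℝ) := by
      exact_mod_cast h2
    linarith
  · filter_upwards with n
    refine div_le_one_of_le₀ ?_ (Nat.cast_nonneg _)
    have h2 := hsplit n
    have h3 : Nat.card {A : (Fin 3 → Fin n) → Bool // IsPerm (d := 2) A ∧
          (eps (d := 2) A : ℝ) ≤ C * (n : ℝ) ^ 2} ≤
        Nat.card {A : (Fin 3 → Fin n) → Bool // IsPerm (d := 2) A} := by omega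
    exact_mod_cast h3

end Pool.Agent.Helper3.EL
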