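import Pool.Agent.Helper3.EL.Defs

/-!
# Project EL, module I: sequential choices
-/

set_option autoImplicit false

namespace Pool.Agent.Helper3.EL

open Finset Pool.Agent.Lead.TB Pool.Agent.Lead.TB.Halves Pool.Agent.Helper84.TL

namespace Seq

theorem pos_lt {n : ℕ} (ω : Equiv.Perm (Fin n)) (s r : Fin n) : pos ω s r < n * n := by
  unfold pos
  have h1 := s.2
  have h2 := (ω r).2
  have h3 : (s.val + 1) * n ≤ n * n := Nat.mul_le_mul_right n h1
  rw [Nat.add_mul] at h3
  omega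

theorem exists_cell {n : ℕ} (ω : Equiv.Perm (Fin n)) {t : ℕ} (ht : t < n * n) :
    ∃ s r, pos ω s r = t := by
  have hn : 0 < n := Nat.pos_of_ne_zero fun h => by subst h; simp at ht
  refine ⟨⟨t / n, Nat.div_lt_of_lt_mul ht⟩, ω.symm ⟨t % n, Nat.mod_lt _ hn⟩, ?_⟩
  unfold pos
  simp only [Equiv.apply_symm_apply]
  rw [Nat.mul_comm]
  exact Nat.div_add_mod t n

theorem pos_inj2 {n : ℕ} (ω : Equiv.Perm (Fin n)) {s r s' r' : Fin n}
    (h : pos ω s r = pos ω s' r') : s = s' ∧ r = r' := by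
  unfold pos at h
  have hx := (ω r).2
  have hy := (ω r').2
  have hn : 0 < n := by omega
  have h1 : s.val = s'.val := by
    have h2 : ((ω r).val + s.val * n) / n = ((ω r').val + s'.val * n) / n := by
      rw [Nat.add_comm, h, Nat.add_comm]
    rw [Nat.add_mul_div_right _ _ hn, Nat.div_eq_of_lt hx,
      Nat.add_mul_div_right _ _ hn, Nat.div_eq_of_lt hy] at h2
    omega
  have h3 : (ω r).val = (ω r').val := by
    rw [h1] at h
    omega
  exact ⟨Fin.ext h1, ω.injective (Fin.ext h3)⟩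

/-- The product over the cells from the position `t` on. -/
noncomputable def Q {n : ℕ} (ω : Equiv.Perm (Fin n))
    (q : Fin n → Fin n → (Fin n → Equiv.Perm (Fin n)) → ℝ) (t : ℕ)
    (L : Fin n → Equiv.Perm (Fin n)) : ℝ :=
  ∏ x : Fin n × Fin n, if t ≤ pos ω x.1 x.2 then q x.1 x.2 L else 1

theorem Q_step {n : ℕ} (ω : Equiv.Perm (Fin n))
    (q : Fin n → Fin n → (Fin n → Equiv.Perm (Fin n)) → ℝ) (s r : Fin n)
    (L : Fin n → Equiv.Perm (Fin n)) :
    Q ω q (pos ω s r) L = q s r L * Q ω q (pos ω s r + 1) L := by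
  unfold Q
  rw [← Finset.mul_prod_erase univ _ (mem_univ ((s, r) : Fin n × Fin n)),
    ← Finset.mul_prod_erase univ (fun x : Fin n × Fin n =>
      if pos ω s r + 1 ≤ pos ω x.1 x.2 then q x.1 x.2 L else 1) (mem_univ ((s, r) : Fin n × Fin n))]
  simp only [le_refl, if_true]
  rw [if_neg (by omega), one_mul]
  congr 1
  refine Finset.prod_congr rfl fun x hx => ?_
  have hne : x ≠ (s, r) := (mem_erase.1 hx).1
  have h1 : pos ω x.1 x.2 ≠ pos ω s r := by
    intro h
    obtain ⟨h2, h3⟩ := pos_inj2 ω h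
    exact hne (Prod.ext h2 h3)
  by_cases h2 : pos ω s r ≤ pos ω x.1 x.2
  · rw [if_pos h2, if_pos (by omega)]
  · rw [if_neg h2, if_neg (by omega)]

theorem claim {n : ℕ} (ω : Equiv.Perm (Fin n)) (S : Finset (Fin n → Equiv.Perm (Fin n)))
    (q : Fin n → Fin n → (Fin n → Equiv.Perm (Fin n)) → ℝ)
    (h0 : ∀ s r, ∀ L ∈ S, 0 ≤ q s r L)
    (hq : ∀ s r, ∀ L ∈ S, ∀ L' ∈ S, agr ω (pos ω s r + 1) L L' → q s r L = q s r L')
    (h1 : ∀ s r, ∀ R ⊆ S, (∀ L ∈ R, ∀ L' ∈ R, agr ω (pos ω s r) L L') →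
      (∀ L ∈ R, ∀ L' ∈ R, L s r = L' s r → L = L') → ∑ L ∈ R, q s r L ≤ 1) :
    ∀ d t : ℕ, t + d = n * n → ∀ R ⊆ S, (∀ L ∈ R, ∀ L' ∈ R, agr ω t L L') →
      ∑ L ∈ R, Q ω q t L ≤ 1 := by
  classical
  intro d
  induction d with
  | zero =>
    intro t ht R _ hR
    have h2 : ∀ L ∈ R, Q ω q t L = 1 := by
      intro L _
      unfold Q
      refine Finset.prod_eq_one fun x _ => ?_
      rw [if_neg]
      have h3 := pos_lt ω x.1 x.2
      omega
    rw [Finset.sum_congr rfl h2, Finset.sum_const, nsmul_eq_mul, mul_one]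
    have h4 : R.card ≤ 1 := by
      rw [Finset.card_le_one]
      intro L hL L' hL'
      funext s
      apply Equiv.ext
      intro r
      have h3 := pos_lt ω s r
      exact hR L hL L' hL' s r (by omega)
    exact_mod_cast h4
  | succ d ih =>
    intro t ht R hRS hR
    obtain ⟨s, r, hsr⟩ := exists_cell ω (t := t) (by omega)
    have hag : ∀ L ∈ R, ∀ L' ∈ R, L s r = L' s r → agr ω (t + 1) L L' := by
      intro L hL L' hL' h s' r' hp
      rcases Nat.lt_succ_iff_lt_or_eq.1 hp with h2 | h2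
      · exact hR L hL L' hL' s' r' h2
      · rw [← hsr] at h2
        obtain ⟨h3, h4⟩ := pos_inj2 ω h2
        rw [h3, h4]
        exact h
    -- representatives
    have hrep : ∀ c ∈ R.image (fun L => L s r), ∃ L ∈ R, L s r = c := by
      intro c hc
      obtain ⟨L, hL, h⟩ := mem_image.1 hc
      exact ⟨L, hL, h⟩
    choose! rep hrep1 hrep2 using hrep
    have hfib : ∑ L ∈ R, Q ω q t L =
        ∑ c ∈ R.image (fun L => L s r), ∑ L ∈ R.filter (fun L => L s r = c), Q ω q t L :=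
      (Finset.sum_fiberwise_of_maps_to (fun L hL => mem_image_of_mem _ hL) _).symm
    rw [hfib]
    have hle : ∀ c ∈ R.image (fun L => L s r),
        ∑ L ∈ R.filter (fun L => L s r = c), Q ω q t L ≤ q s r (rep c) := by
      intro c hc
      have h2 : ∀ L ∈ R.filter (fun L => L s r = c), Q ω q t L =
          q s r (rep c) * Q ω q (t + 1) L := by
        intro L hL
        rw [mem_filter] at hL
        rw [← hsr, Q_step]
        congr 1
        refine hq s r L (hRS hL.1) (rep c) (hRS (hrep1 c hc)) ?_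
        rw [hsr]
        exact hag L hL.1 (rep c) (hrep1 c hc) (by rw [hL.2, hrep2 c hc])
      rw [Finset.sum_congr rfl h2, ← Finset.mul_sum]
      have h3 : ∑ L ∈ R.filter (fun L => L s r = c), Q ω q (t + 1) L ≤ 1 := by
        refine ih (t + 1) (by omega) _ ((filter_subset _ _).trans hRS) ?_
        intro L hL L' hL'
        rw [mem_filter] at hL hL'
        exact hag L hL.1 L' hL'.1 (by rw [hL.2, hL'.2])
      have h4 : 0 ≤ q s r (rep c) := h0 s r _ (hRS (hrep1 c hc))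
      calc q s r (rep c) * ∑ L ∈ R.filter (fun L => L s r = c), Q ω q (t + 1) L
          ≤ q s r (rep c) * 1 := mul_le_mul_of_nonneg_left h3 h4
        _ = _ := mul_one _
    refine (Finset.sum_le_sum hle).trans ?_
    have hinj : Set.InjOn rep (R.image fun L => L s r) := by
      intro c hc c' hc' h
      rw [← hrep2 c hc, ← hrep2 c' hc', h]
    rw [← Finset.sum_image (g := rep) (f := fun L => q s r L) hinj]
    refine h1 s r _ ?_ ?_ ?_
    · intro L hL
      obtain ⟨c, hc, rfl⟩ := mem_image.1 hL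
      exact hRS (hrep1 c hc)
    · intro L hL L' hL'
      obtain ⟨c, hc, rfl⟩ := mem_image.1 hL
      obtain ⟨c', hc', rfl⟩ := mem_image.1 hL'
      rw [hsr]
      exact hR _ (hrep1 c hc) _ (hrep1 c' hc')
    · intro L hL L' hL' h
      obtain ⟨c, hc, rfl⟩ := mem_image.1 hL
      obtain ⟨c', hc', rfl⟩ := mem_image.1 hL'
      rw [hrep2 c hc, hrep2 c' hc'] at h
      rw [h]

end Seq

theorem seq_sum {n : ℕ} (ω : Equiv.Perm (Fin n)) (S : Finset (Fin n → Equiv.Perm (Fin n)))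
    (q : Fin n → Fin n → (Fin n → Equiv.Perm (Fin n)) → ℝ)
    (h0 : ∀ s r, ∀ L ∈ S, 0 ≤ q s r L)
    (hq : ∀ s r, ∀ L ∈ S, ∀ L' ∈ S, agr ω (pos ω s r + 1) L L' → q s r L = q s r L')
    (h1 : ∀ s r, ∀ R ⊆ S, (∀ L ∈ R, ∀ L' ∈ R, agr ω (pos ω s r) L L') →
      (∀ L ∈ R, ∀ L' ∈ R, L s r = L' s r → L = L') → ∑ L ∈ R, q s r L ≤ 1) :
    ∑ L ∈ S, ∏ s, ∏ r, q s r L ≤ 1 := by
  have h2 := Seq.claim ω S q h0 hq h1 (n * n) 0 (by omega) S (Finset.Subset.refl _)
    (fun L _ L' _ s r h => absurd h (Nat.not_lt_zero _))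
  refine le_of_eq_of_le (Finset.sum_congr rfl fun L _ => ?_) h2
  unfold Seq.Q
  rw [Fintype.prod_prod_type]
  simp

end Pool.Agent.Helper3.EL
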